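import Pool.Agent.W_554263_h47.R

/-!
Uniform almost unimodular regular full triangulations of dilations of lattice polytopes.
-/

set_option autoImplicit false

namespace Pool.Agent.Results.MP_554263_co.AlmostUnimodular

open MeasureTheory
open scoped Pointwise

variable {d : ℕ}

/-- the real point of a lattice point -/
def pt (a : Fin d → ℤ) : Fin d → ℝ := fun i => (a i : ℝ)

/-- the convex hull in `ℝ^d` of a finite set of lattice points -/
def conv (S : Finset (Fin d → ℤ)) : Set (Fin d → ℝ) := convexHull ℝ (pt '' (S : Set (Fin d → ℤ)))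

/-- `T`, a finite set of vertex sets, is a triangulation of `Q` into `d`-dimensional lattice simplices:
each member of `T` has `d + 1` affinely independent points, the simplices cover `Q`, and any two of
them meet in the convex hull of their common vertices -/
structure IsTriangulation (Q : Set (Fin d → ℝ)) (T : Finset (Finset (Fin d → ℤ))) : Prop where
  card : ∀ S ∈ T, S.card = d + 1
  indep : ∀ S ∈ T, AffineIndependent ℝ (fun s : S => pt (s : Fin d → ℤ))
  cover : ⋃ S ∈ T, conv S = Q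
  inter : ∀ S ∈ T, ∀ S' ∈ T, conv S ∩ conv S' = conv (S ∩ S')

/-- `T` is regular: there are weights `w` of the lattice points of `Q` such that above each `S ∈ T`
an affine function equals `w` on `S` and is below `w` at all other lattice points of `Q` -/
def IsRegular (Q : Set (Fin d → ℝ)) (T : Finset (Finset (Fin d → ℤ))) : Prop :=
  ∃ w : (Fin d → ℤ) → ℝ, ∀ S ∈ T, ∃ (L : (Fin d → ℝ) →ₗ[ℝ] ℝ) (b : ℝ),
    (∀ v ∈ S, w v = L (pt v) + b) ∧ ∀ a, pt a ∈ Q → a ∉ S → L (pt a) + b < w a

/-- `T` is full: each lattice point of a simplex of `T` is one of its vertices -/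
def IsFull (T : Finset (Finset (Fin d → ℤ))) : Prop := ∀ S ∈ T, ∀ a, pt a ∈ conv S → a ∈ S

/-- `U` is a unimodular simplex of the lattice `Λ`: the differences to one of its vertices are a
basis of `Λ` -/
def IsUnimodular (Λ : Submodule ℤ (Fin d → ℤ)) (U : Finset (Fin d → ℤ)) : Prop :=
  ∃ (k : ℕ) (u : Fin d → ℤ) (e : Fin k → Fin d → ℤ), LinearIndependent ℤ e ∧
    Submodule.span ℤ (Set.range e) = Λ ∧ (U : Set (Fin d → ℤ)) = insert u (Set.range fun i => u + e i)

/-- the lattice of `F`: the integer vectors in the direction of the affine hull of `F` -/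
def faceLattice (F : Set (Fin d → ℝ)) : Submodule ℤ (Fin d → ℤ) where
  carrier := {a | pt a ∈ vectorSpan ℝ F}
  add_mem' {a b} ha hb := by
    have h : pt (a + b) = pt a + pt b := by funext i; simp [pt]
    have h' : pt (a + b) ∈ vectorSpan ℝ F := by rw [h]; exact Submodule.add_mem _ ha hb
    exact h'
  zero_mem' := by
    have h : pt (0 : Fin d → ℤ) = 0 := by funext i; simp [pt]
    have h' : pt (0 : Fin d → ℤ) ∈ vectorSpan ℝ F := by rw [h]; exact Submodule.zero_mem _
    exact h'
  smul_mem' n a ha := by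
    have h : pt (n • a) = (n : ℝ) • pt a := by funext i; simp [pt]
    have h' : pt (n • a) ∈ vectorSpan ℝ F := by rw [h]; exact Submodule.smul_mem _ _ ha
    exact h'

open Pool.MP_554263_co.H47 in
theorem exists_lattice_points (P : Set (Fin d → ℝ)) (hP : Bornology.IsBounded P) :
    ∃ A : Finset (Fin d → ℤ), ∀ a, a ∈ A ↔ toR a ∈ P := by
  classical
  obtain ⟨R, hR⟩ := hP.exists_norm_le
  have hfin : {a : Fin d → ℤ | toR a ∈ P}.Finite := by
    refine (Set.finite_Icc (fun _ => -⌈R⌉) (fun _ => ⌈R⌉)).subset ?_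
    intro a ha
    have h1 := hR _ ha
    have h2 : ∀ i, |(a i : ℝ)| ≤ R := fun i => by
      have := norm_le_pi_norm (toR a) i
      rw [Real.norm_eq_abs] at this
      exact this.trans h1
    constructor
    · intro i
      have h3 := (abs_le.1 (h2 i)).1
      have h4 := Int.le_ceil R
      have : ((-⌈R⌉ : ℤ) : ℝ) ≤ a i := by push_cast; linarith
      exact_mod_cast this
    · intro i
      have h3 := (abs_le.1 (h2 i)).2
      have h4 := Int.le_ceil R
      have : (a i : ℝ) ≤ (⌈R⌉ : ℤ) := by linarith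
      exact_mod_cast this
  exact ⟨hfin.toFinset, fun a => by rw [Set.Finite.mem_toFinset]; rfl⟩

open Pool.MP_554263_co.H47 in
theorem hull_dil (c : ℕ) (V : Finset (Fin d → ℤ)) :
    hull (dil c V) = (c : ℝ) • convexHull ℝ (toR '' (V : Set (Fin d → ℤ))) := by
  classical
  unfold hull
  rw [← convexHull_smul]
  congr 1
  ext x
  rw [Set.mem_smul_set]
  constructor
  · rintro ⟨a, ha, rfl⟩
    obtain ⟨v, hv, rfl⟩ := mem_dil.1 ha
    exact ⟨toR v, ⟨v, hv, rfl⟩, by funext i; simp [toR]⟩
  · rintro ⟨_, ⟨v, hv, rfl⟩, rfl⟩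
    exact ⟨(c : ℤ) • v, mem_dil.2 ⟨v, hv, rfl⟩, by funext i; simp [toR]⟩

open Pool.MP_554263_co.H47 in
theorem faceLattice_eq (F : Set (Fin d → ℝ)) : faceLattice F = dirLattice F := by
  ext a
  exact Iff.rfl

theorem faceLattice_top {F : Set (Fin d → ℝ)} (h : affineSpan ℝ F = ⊤) : faceLattice F = ⊤ := by
  ext a
  simp only [Submodule.mem_top, iff_true]
  have h1 : pt a ∈ vectorSpan ℝ F := by
    rw [← direction_affineSpan, h, AffineSubspace.direction_top]
    exact Submodule.mem_top
  exact h1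

open Pool.MP_554263_co.H47 in
/-- Let `V` be a finite set of lattice points of `ℝ^d` whose convex hull is `d`-dimensional, let
`c > C = 2 (d + 1) ^ 3` and `Q = c conv V`. There is a full regular triangulation `T` of `Q` into
lattice simplices such that, for each nonempty face `F` of `Q`, there is a point `g` of `F` such that
for each `S ∈ T` meeting the homothetic copy of `F` with centre `g` and ratio `1 - C / c`, the vertices
of `S` in `F` are vertices of a unimodular simplex of the lattice of `F` with vertices in `F`. The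
unimodular simplices of `T` fill at least `(1 - C / c) ^ d` of the volume of `Q`. -/
theorem result (d : ℕ) (V : Finset (Fin d → ℤ))
    (hV : affineSpan ℝ (pt '' (V : Set (Fin d → ℤ))) = ⊤) (c : ℕ) (hc : 2 * (d + 1) ^ 3 < c)
    (Q : Set (Fin d → ℝ)) (hQ : Q = (c : ℝ) • convexHull ℝ (pt '' (V : Set (Fin d → ℤ)))) :
    ∃ T : Finset (Finset (Fin d → ℤ)), IsTriangulation Q T ∧ IsRegular Q T ∧ IsFull T ∧
      (∀ F : Set (Fin d → ℝ), IsExtreme ℝ Q F → Convex ℝ F → F.Nonempty → ∃ g ∈ F, ∀ S ∈ T,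
        (conv S ∩ AffineMap.homothety g (1 - (2 * (d + 1) ^ 3 : ℝ) / c) '' F).Nonempty →
        ∃ U, IsUnimodular (faceLattice F) U ∧ (∀ u ∈ U, pt u ∈ F) ∧ ∀ a ∈ S, pt a ∈ F → a ∈ U) ∧
      ENNReal.ofReal ((1 - (2 * (d + 1) ^ 3 : ℝ) / c) ^ d) * volume Q ≤
        volume (⋃ S ∈ {S | S ∈ T ∧ IsUnimodular ⊤ S}, conv S) := by
  classical
  have hc0 : 0 < c := by omega
  have hcR : (0 : ℝ) < c := by exact_mod_cast hc0
  have hK : ((K0 d : ℕ) : ℝ) = 2 * ((d : ℝ) + 1) ^ 3 := by unfold K0; push_cast; ring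
  have hQd : hull (dil c V) = Q := by rw [hull_dil, hQ]; rfl
  obtain ⟨A, hA⟩ := exists_lattice_points (hull (dil c V)) (hull_isCompact _).isBounded
  let D : Data d := ⟨c, V, A, hc, hA⟩
  have hDQ : D.Q = Q := hQd
  obtain ⟨w, hu, hcell⟩ := D.exists_weights
  have hAQ : hull A = Q := by rw [← hDQ]; exact D.hull_A
  have hQtop : affineSpan ℝ Q = ⊤ := by
    have h1 : (interior (convexHull ℝ (pt '' (V : Set (Fin d → ℤ))))).Nonempty :=
      interior_convexHull_nonempty_iff_affineSpan_eq_top.2 hV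
    have h2 : (interior Q).Nonempty := by
      rw [hQ, interior_smul₀ hcR.ne']
      exact h1.smul_set
    exact affineSpan_eq_top_of_nonempty_interior (h2.mono (interior_mono (subset_convexHull ℝ Q)))
  have hAtop : affineSpan ℝ (toR '' (A : Set (Fin d → ℤ))) = ⊤ := by
    rw [← hQtop, ← hAQ]
    unfold hull
    rw [affineSpan_convexHull]
  have hQne : Q.Nonempty := by
    by_contra h
    rw [Set.not_nonempty_iff_eq_empty] at h
    rw [h, AffineSubspace.span_empty] at hQtop
    exact absurd hQtop (bot_ne_top)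
  have hQconv : Convex ℝ Q := by rw [← hAQ]; exact convex_convexHull ℝ _
  have hmain : ∀ F : Set (Fin d → ℝ), IsExtreme ℝ Q F → Convex ℝ F → F.Nonempty → ∃ g ∈ F,
      ∀ S ∈ cells A w, ∀ x ∈ hull S, x ∈ core c F g →
        ∃ U, IsUnimodular (faceLattice F) U ∧ U.card ≤ d + 1 ∧ (∀ u ∈ U, pt u ∈ F) ∧
          ∀ a ∈ S, pt a ∈ F → a ∈ U := by
    intro F hF1 hF2 hF3
    have hF : D.Face F := ⟨by rw [hDQ]; exact hF1, hF2, hF3⟩
    refine ⟨D.gc F, (D.good hF).g0, fun S hS x hx hxc => ?_⟩
    exact D.main_face hcell hF hS hx hxc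
  have hcore : ∀ (F : Set (Fin d → ℝ)) (g : Fin d → ℝ),
      AffineMap.homothety g (1 - (2 * ((d : ℝ) + 1) ^ 3 : ℝ) / c) '' F = core c F g := by
    intro F g
    rw [core_eq, hK]
  have hcells : ∀ S ∈ cells A w, S.card = d + 1 ∧
      AffineIndependent ℝ (fun s : S => toR (s : Fin d → ℤ)) := by
    intro S hS
    obtain ⟨-, h1, x, l, hl, hls⟩ := mem_cells.1 hS
    exact ⟨h1, support_indep hu hl fun a ha => (hls a).2 ha⟩
  refine ⟨cells A w, ⟨fun S hS => (hcells S hS).1, fun S hS => (hcells S hS).2, ?_, ?_⟩, ?_, ?_, ?_,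
    ?_⟩
  · rw [← hAQ, ← cells_cover hu hAtop]
    rfl
  · intro S hS S' hS'
    exact cells_inter hu hS hS'
  · refine ⟨w, fun S hS => ?_⟩
    obtain ⟨L, b, h1, h2⟩ := cells_regular hu hS
    refine ⟨L, b, h1, fun a ha haS => h2 a ?_ haS⟩
    rw [hA, hQd]
    exact ha
  · intro S hS a ha
    exact D.full hcell hS ha
  · intro F hF1 hF2 hF3
    obtain ⟨g, hg, h⟩ := hmain F hF1 hF2 hF3
    refine ⟨g, hg, fun S hS hne => ?_⟩
    rw [hcore] at hne
    obtain ⟨x, hx1, hx2⟩ := hne
    obtain ⟨U, h1, -, h2, h3⟩ := h S hS x hx1 hx2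
    exact ⟨U, h1, h2, h3⟩
  · obtain ⟨g, hg, h⟩ := hmain Q (IsExtreme.refl ℝ Q) hQconv hQne
    have hvol := volume_core hc Q g
    rw [hK] at hvol
    rw [← hvol]
    apply measure_mono
    intro x hx
    have hxQ : x ∈ Q := by
      obtain ⟨p, hp, rfl⟩ := hx
      have hle : (K0 d : ℝ) / c ≤ 1 := by
        rw [div_le_one hcR]
        exact_mod_cast hc.le
      exact hQconv hp hg (by linarith) (by positivity) (by ring)
    rw [← hAQ, ← cells_cover hu hAtop] at hxQ
    obtain ⟨S, hS, hxS⟩ := Set.mem_iUnion₂.1 hxQ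
    refine Set.mem_biUnion (x := S) ⟨hS, ?_⟩ hxS
    obtain ⟨U, h1, h2, h3, h4⟩ := h S hS x hxS hx
    have hSU : S ⊆ U := fun a ha => h4 a ha (by
      have : toR a ∈ hull A := subset_convexHull ℝ _ ⟨a, (mem_cells.1 hS).1 ha, rfl⟩
      rw [hAQ] at this
      exact this)
    have hSU' : S = U := Finset.eq_of_subset_of_card_le hSU (by rw [(hcells S hS).1]; exact h2)
    rw [hSU', ← faceLattice_top hQtop]
    exact h1

end Pool.Agent.Results.MP_554263_co.AlmostUnimodular
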